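import Pool.Agent.N295.SR.Stm

/-!
# Project SR (helper295): high modes vanish, and the maximum on a cap

Author: helper645.
-/

set_option autoImplicit false

open MeasureTheory Set Filter Topology

namespace Pool.Agent.N645.SR

open Pool.Agent.N295.SR (S_MODE S_CAP Cyl)
open Pool.Agent.Y291.DB (Sol um ek um_d1 um_d2 inversion)
open Real (pi)

noncomputable section

lemma ek_norm (k : ℤ) (y : ℝ) : ‖ek k y‖ = 1 := by
  unfold ek
  rw [show -((k : ℂ) * (y : ℂ) * Complex.I) = ((-(k * y) : ℝ) : ℂ) * Complex.I by push_cast; ring,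
    Complex.norm_exp_ofReal_mul_I]

lemma um_bd {φ : ℝ → ℝ → ℝ} {x S : ℝ} (h : ∀ y, |φ x y| ≤ S) (k : ℤ) : ‖um φ k x‖ ≤ S := by
  unfold um
  have h1 : ‖∫ y in (0 : ℝ)..(2 * Real.pi), (φ x y : ℂ) * ek k y‖ ≤ S * |2 * Real.pi - 0| := by
    refine intervalIntegral.norm_integral_le_of_norm_le_const fun y _ => ?_
    rw [norm_mul, ek_norm, mul_one, Complex.norm_real, Real.norm_eq_abs]
    exact h y
  have hp := Real.pi_pos
  rw [sub_zero, abs_of_pos (by positivity)] at h1
  rw [norm_mul, Complex.norm_real, Real.norm_of_nonneg (by positivity)]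
  calc 1 / (2 * Real.pi) * ‖∫ y in (0 : ℝ)..(2 * Real.pi), (φ x y : ℂ) * ek k y‖
      ≤ 1 / (2 * Real.pi) * (S * (2 * Real.pi)) := mul_le_mul_of_nonneg_left h1 (by positivity)
    _ = S := by field_simp

/-- a function bounded above with monotone derivative on a half line is nonincreasing -/
lemma half {f g : ℝ → ℝ} {T C : ℝ} (hf : ∀ x, HasDerivAt f (2 * g x) x)
    (hg : MonotoneOn g (Ici T)) (hb : ∀ x, T ≤ x → f x ≤ C) : ∀ x, T ≤ x → g x ≤ 0 := by
  intro x0 hx0
  by_contra hc
  push Not at hc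
  have h1 : ∀ x, x0 ≤ x → 2 * g x0 * (x - x0) ≤ f x - f x0 := by
    intro x hx
    have h2 : ∀ t ∈ interior (Icc x0 x), 2 * g x0 ≤ deriv f t := by
      intro t ht
      rw [interior_Icc] at ht
      rw [(hf t).deriv]
      have := hg (show x0 ∈ Ici T from hx0) (show t ∈ Ici T from hx0.trans ht.1.le) ht.1.le
      linarith
    exact (convex_Icc x0 x).mul_sub_le_image_sub_of_le_deriv
      (fun t _ => (hf t).continuousAt.continuousWithinAt)
      (fun t _ => (hf t).differentiableAt.differentiableWithinAt) h2 x0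
      (left_mem_Icc.2 hx) x (right_mem_Icc.2 hx) hx
  set x := x0 + (C - f x0 + 1) / (2 * g x0) with hx
  have h3 : f x0 ≤ C := hb x0 hx0
  have h4 : x0 ≤ x := by
    rw [hx]
    have : 0 ≤ (C - f x0 + 1) / (2 * g x0) := by
      apply div_nonneg <;> linarith
    linarith
  have h5 := h1 x h4
  have h6 := hb x (hx0.trans h4)
  have h7 : 2 * g x0 * (x - x0) = C - f x0 + 1 := by
    rw [hx]; field_simp; ring
  linarith

section sol

variable {q : ℝ → ℝ} {φ φx φxx φy φyy : ℝ → ℝ → ℝ}

/-- half the derivative of `|u|²` -/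
def gg (φ φx : ℝ → ℝ → ℝ) (k : ℤ) (x : ℝ) : ℝ :=
  (um φ k x).re * (um φx k x).re + (um φ k x).im * (um φx k x).im

def ff (φ : ℝ → ℝ → ℝ) (k : ℤ) (x : ℝ) : ℝ := (um φ k x).re ^ 2 + (um φ k x).im ^ 2

lemma ff_eq (φ : ℝ → ℝ → ℝ) (k : ℤ) (x : ℝ) : ff φ k x = ‖um φ k x‖ ^ 2 := by
  unfold ff
  rw [← Complex.normSq_eq_norm_sq, Complex.normSq_apply]
  ring

lemma hre (f : ℝ → ℂ) (f' : ℂ) (x : ℝ) (hf : HasDerivAt f f' x) :
    HasDerivAt (fun t => (f t).re) f'.re x ∧ HasDerivAt (fun t => (f t).im) f'.im x :=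
  ⟨Complex.reCLM.hasFDerivAt.comp_hasDerivAt x hf, Complex.imCLM.hasFDerivAt.comp_hasDerivAt x hf⟩

lemma ff_d (h : Sol q φ φx φxx φy φyy) (hper : ∀ x y, φ x (y + 2 * Real.pi) = φ x y)
    (k : ℤ) (x : ℝ) : HasDerivAt (ff φ k) (2 * gg φ φx k x) x := by
  obtain ⟨a1, a2⟩ := hre _ _ _ (um_d1 h hper k x)
  have h1 := (a1.pow 2).add (a2.pow 2)
  refine (h1.congr_deriv ?_).congr_of_eventuallyEq (Eventually.of_forall fun t => ?_)
  · unfold gg
    simp only [Nat.cast_ofNat, Nat.add_one_sub_one, pow_one]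
    ring
  · simp only [ff, Pi.add_apply, Pi.pow_apply]

lemma gg_d (h : Sol q φ φx φxx φy φyy) (hper : ∀ x y, φ x (y + 2 * Real.pi) = φ x y)
    (k : ℤ) (x : ℝ) :
    HasDerivAt (gg φ φx k) (‖um φx k x‖ ^ 2 + ((k : ℝ) ^ 2 - q x) * ‖um φ k x‖ ^ 2) x := by
  obtain ⟨a1, a2⟩ := hre _ _ _ (um_d1 h hper k x)
  obtain ⟨a3, a4⟩ := hre _ _ _ (um_d2 h hper k x)
  have h1 := (a1.mul a3).add (a2.mul a4)
  refine (h1.congr_deriv ?_).congr_of_eventuallyEq (Eventually.of_forall fun t => ?_)
  · rw [← Complex.normSq_eq_norm_sq, ← Complex.normSq_eq_norm_sq, Complex.normSq_apply,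
      Complex.normSq_apply, Complex.re_ofReal_mul, Complex.im_ofReal_mul]
    ring
  · simp only [gg, Pi.add_apply, Pi.mul_apply]

theorem MODE : S_MODE := by
  intro q φ φx φxx φy φyy Q h hper ⟨B, hB⟩ hQ k hk x
  have hgd := gg_d h hper k
  have hfd := ff_d h hper k
  have hmono : Monotone (gg φ φx k) := by
    refine monotone_of_deriv_nonneg (fun x => (hgd x).differentiableAt) fun x => ?_
    rw [(hgd x).deriv]
    have h1 : 0 ≤ (k : ℝ) ^ 2 - q x := by linarith [hQ x]
    positivity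
  have hb : ∀ x, ff φ k x ≤ B ^ 2 := by
    intro x
    rw [ff_eq]
    exact pow_le_pow_left₀ (norm_nonneg _) (um_bd (hB x) k) 2
  have h1 : ∀ x, gg φ φx k x ≤ 0 := fun x =>
    half (T := x) hfd (fun a _ b _ hab => hmono hab) (fun y _ => hb y) x le_rfl
  have h2 : ∀ x, 0 ≤ gg φ φx k x := by
    intro x
    have hf' : ∀ t, HasDerivAt (fun t => ff φ k (-t)) (2 * (-gg φ φx k (-t))) t := by
      intro t
      have := (hfd (-t)).comp t (hasDerivAt_neg t)
      refine this.congr_deriv ?_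
      ring
    have := half (T := -x) (g := fun t => -gg φ φx k (-t)) hf'
      (fun a _ b _ hab => neg_le_neg (hmono (neg_le_neg hab))) (fun y _ => hb (-y)) (-x) le_rfl
    simp only [neg_neg] at this
    linarith
  have h3 : gg φ φx k = fun _ => 0 := funext fun x => le_antisymm (h1 x) (h2 x)
  have h4 := hgd x
  rw [h3] at h4
  have h5 := h4.unique (hasDerivAt_const x (0 : ℝ))
  have h6 : 0 < (k : ℝ) ^ 2 - q x := by linarith [hQ x]
  have h7 : ((k : ℝ) ^ 2 - q x) * ‖um φ k x‖ ^ 2 = 0 := by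
    have : 0 ≤ ((k : ℝ) ^ 2 - q x) * ‖um φ k x‖ ^ 2 := by positivity
    nlinarith [sq_nonneg ‖um φx k x‖]
  rcases mul_eq_zero.1 h7 with h8 | h8
  · exact absurd h8 h6.ne'
  · exact norm_eq_zero.1 (pow_eq_zero_iff two_ne_zero |>.1 h8)

lemma exp_d (T t : ℝ) : HasDerivAt (fun t => Real.exp (-2 * (t - T)))
    (-2 * Real.exp (-2 * (t - T))) t := by
  have h1 : HasDerivAt (fun t => -2 * (t - T)) (-2) t := by
    simpa using ((hasDerivAt_id t).sub_const T).const_mul (-2)
  exact h1.exp.congr_deriv (by ring)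

/-- the mode of order zero on the cap -/
lemma zero_mode {u p : ℝ → ℂ} {q : ℝ → ℝ} {T S M : ℝ} (hu : ∀ x, HasDerivAt u (p x) x)
    (hp : ∀ x, HasDerivAt p ((-q x : ℝ) * u x) x)
    (hq : ∀ x, T ≤ x → 0 ≤ q x ∧ q x ≤ Real.exp (-2 * (x - T)) / 8)
    (hM : ∀ x, T ≤ x → ‖u x‖ ≤ M) (hS : ‖u T‖ ≤ S) :
    ∀ x, T ≤ x → ‖u x‖ ≤ S + M / 32 := by
  have hM0 : 0 ≤ M := (norm_nonneg _).trans (hM T le_rfl)
  -- variation of `p`
  have h1 : ∀ x, T ≤ x → ∀ y, x ≤ y → ‖p y - p x‖ ≤ M / 16 * Real.exp (-2 * (x - T)) := by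
    intro x hx y hy
    have hB : ∀ t : ℝ, HasDerivAt (fun t : ℝ => M / 16 * (Real.exp (-2 * (x - T)) -
        Real.exp (-2 * (t - T)))) (M / 8 * Real.exp (-2 * (t - T))) t := by
      intro t
      exact (((exp_d T t).const_sub (Real.exp (-2 * (x - T)))).const_mul (M / 16)).congr_deriv
        (by ring)
    have main := image_norm_le_of_norm_deriv_right_le_deriv_boundary (a := x) (b := y)
      (f := fun t => p t - p x) (f' := fun t => (-q t : ℝ) * u t)
      (B := fun t : ℝ => M / 16 * (Real.exp (-2 * (x - T)) - Real.exp (-2 * (t - T))))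
      (B' := fun t => M / 8 * Real.exp (-2 * (t - T)))
      (fun t _ => ((hp t).sub_const (p x)).continuousAt.continuousWithinAt)
      (fun t _ => ((hp t).sub_const (p x)).hasDerivWithinAt)
      (by simp) (fun t => hB t)
      (fun t ht => by
        have h2 := hq t (hx.trans ht.1)
        have h3 := hM t (hx.trans ht.1)
        rw [norm_mul, Complex.norm_real, norm_neg, Real.norm_of_nonneg h2.1]
        calc q t * ‖u t‖ ≤ Real.exp (-2 * (t - T)) / 8 * M :=
            mul_le_mul h2.2 h3 (norm_nonneg _) (by positivity)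
          _ = _ := by ring)
    have h4 := main (right_mem_Icc.2 hy)
    have h5 : 0 ≤ M / 16 * Real.exp (-2 * (y - T)) := by positivity
    linarith
  -- bound of `p`
  have h2 : ∀ x, T ≤ x → ‖p x‖ ≤ M / 16 * Real.exp (-2 * (x - T)) := by
    intro x hx
    set r := M / 16 * Real.exp (-2 * (x - T)) with hr
    have h3 : ∀ Λ : ℝ, 0 < Λ → ‖p x‖ ≤ r + 2 * M / Λ := by
      intro Λ hΛ
      have h4 : ‖(u (x + Λ) - p x * ((x + Λ : ℝ) : ℂ)) - (u x - p x * (x : ℂ))‖ ≤
          r * ((x + Λ) - x) := by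
        refine norm_image_sub_le_of_norm_deriv_le_segment'
          (f := fun t : ℝ => u t - p x * (t : ℂ)) (f' := fun t => p t - p x)
          (a := x) (b := x + Λ) (C := r) ?_ ?_ (x + Λ) (right_mem_Icc.2 (by linarith))
        · intro t _
          have h5 : HasDerivAt (fun t : ℝ => p x * (t : ℂ)) (p x) t := by
            simpa using (Complex.ofRealCLM.hasDerivAt (x := t)).const_mul (p x)
          exact ((hu t).sub h5).hasDerivWithinAt
        · intro t ht
          exact h1 x hx t ht.1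
      have h6 : p x * (Λ : ℂ) = (u (x + Λ) - u x) -
          ((u (x + Λ) - p x * ((x + Λ : ℝ) : ℂ)) - (u x - p x * (x : ℂ))) := by
        push_cast; ring
      have h7 : ‖p x‖ * Λ ≤ 2 * M + r * Λ := by
        have h8 : ‖p x * (Λ : ℂ)‖ = ‖p x‖ * Λ := by
          rw [norm_mul, Complex.norm_real, Real.norm_of_nonneg hΛ.le]
        rw [← h8, h6]
        refine (norm_sub_le _ _).trans ?_
        have h9 := norm_sub_le (u (x + Λ)) (u x)
        have h10 := hM (x + Λ) (by linarith)
        have h11 := hM x hx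
        have h12 : r * (x + Λ - x) = r * Λ := by ring
        linarith
      rw [← sub_le_iff_le_add', le_div_iff₀ hΛ]
      linarith
    have h4 : Tendsto (fun Λ : ℝ => r + 2 * M / Λ) atTop (𝓝 (r + 0)) :=
      tendsto_const_nhds.add (tendsto_const_nhds.div_atTop tendsto_id)
    rw [add_zero] at h4
    exact ge_of_tendsto h4 ((eventually_gt_atTop 0).mono fun Λ hΛ => h3 Λ hΛ)
  -- bound of `u`
  intro x hx
  have hB : ∀ t : ℝ, HasDerivAt (fun t : ℝ => M / 32 * (1 - Real.exp (-2 * (t - T))))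
      (M / 16 * Real.exp (-2 * (t - T))) t := by
    intro t
    exact (((exp_d T t).const_sub 1).const_mul (M / 32)).congr_deriv (by ring)
  have main := image_norm_le_of_norm_deriv_right_le_deriv_boundary (a := T) (b := x)
    (f := fun t => u t - u T) (f' := p)
    (B := fun t : ℝ => M / 32 * (1 - Real.exp (-2 * (t - T))))
    (B' := fun t => M / 16 * Real.exp (-2 * (t - T)))
    (fun t _ => ((hu t).sub_const (u T)).continuousAt.continuousWithinAt)
    (fun t _ => ((hu t).sub_const (u T)).hasDerivWithinAt)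
    (by simp) (fun t => hB t) (fun t ht => h2 t ht.1)
  have h4 := main (right_mem_Icc.2 hx)
  have h5 : 0 ≤ M / 32 * Real.exp (-2 * (x - T)) := by positivity
  have h6 : ‖u x‖ ≤ ‖u x - u T‖ + ‖u T‖ := by
    have := norm_add_le (u x - u T) (u T)
    rwa [sub_add_cancel] at this
  linarith

theorem CAP : S_CAP := by
  intro q K φ φx φxx φy φyy T S hC hq hS
  have h := hC.s
  have hper := hC.per
  obtain ⟨B, hB⟩ := hC.bdd
  have hS0 : 0 ≤ S := (abs_nonneg _).trans (hS 0)
  have key : ∀ k : ℤ, ∀ x, T ≤ x → ‖um φ k x‖ ≤ 2 * S := by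
    intro k x hx
    by_cases hk : k = 0
    · subst hk
      have hp : ∀ x, HasDerivAt (um φx 0) (((-q x : ℝ) : ℂ) * um φ 0 x) x := by
        intro x
        have := um_d2 h hper 0 x
        refine this.congr_deriv ?_
        congr 2
        simp
      have hbd : BddAbove ((fun x => ‖um φ 0 x‖) '' Ici T) := by
        refine ⟨B, ?_⟩
        rintro _ ⟨y, _, rfl⟩
        exact um_bd (hB y) 0
      set m := sSup ((fun x => ‖um φ 0 x‖) '' Ici T) with hm
      have h1 : ∀ x, T ≤ x → ‖um φ 0 x‖ ≤ m := fun x hx => le_csSup hbd ⟨x, hx, rfl⟩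
      have h2 := zero_mode (um_d1 h hper 0) hp hq h1 (um_bd hS 0)
      have h3 : m ≤ S + m / 32 := by
        refine csSup_le ⟨_, T, mem_Ici.2 le_rfl, rfl⟩ ?_
        rintro _ ⟨y, hy, rfl⟩
        exact h2 y hy
      have h4 := h1 x hx
      linarith
    · have hk1 : (1 : ℝ) ≤ (k : ℝ) ^ 2 := by
        have : (1 : ℤ) ≤ k ^ 2 := by
          have := sq_nonneg k
          have h0 : k ^ 2 ≠ 0 := pow_ne_zero 2 hk
          omega
        exact_mod_cast this
      have hgd := gg_d h hper k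
      have hfd := ff_d h hper k
      have hmono : MonotoneOn (gg φ φx k) (Ici T) := by
        refine monotoneOn_of_deriv_nonneg (convex_Ici T)
          (fun x _ => (hgd x).continuousAt.continuousWithinAt)
          (fun x _ => (hgd x).differentiableAt.differentiableWithinAt) fun x hx => ?_
        rw [interior_Ici] at hx
        rw [(hgd x).deriv]
        have h1 : 0 ≤ (k : ℝ) ^ 2 - q x := by
          have := (hq x (le_of_lt hx)).2
          have h2 : Real.exp (-2 * (x - T)) ≤ 1 := by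
            rw [Real.exp_le_one_iff]
            have : T < x := hx
            linarith
          linarith
        positivity
      have hb : ∀ x, T ≤ x → ff φ k x ≤ B ^ 2 := by
        intro x _
        rw [ff_eq]
        exact pow_le_pow_left₀ (norm_nonneg _) (um_bd (hB x) k) 2
      have h1 := half hfd hmono hb
      have hanti : AntitoneOn (ff φ k) (Ici T) := by
        refine antitoneOn_of_deriv_nonpos (convex_Ici T)
          (fun x _ => (hfd x).continuousAt.continuousWithinAt)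
          (fun x _ => (hfd x).differentiableAt.differentiableWithinAt) fun x hx => ?_
        rw [interior_Ici] at hx
        rw [(hfd x).deriv]
        linarith [h1 x (le_of_lt hx)]
      have h2 := hanti (mem_Ici.2 le_rfl) (show x ∈ Ici T from hx) hx
      rw [ff_eq, ff_eq] at h2
      have h3 : ‖um φ k T‖ ≤ S := um_bd hS k
      have h4 : ‖um φ k x‖ ≤ ‖um φ k T‖ := by
        rw [← abs_of_nonneg (norm_nonneg (um φ k x)), ← abs_of_nonneg (norm_nonneg (um φ k T))]
        exact sq_le_sq.1 h2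
      linarith
  intro x y hx
  have h1 := inversion h hper x (hC.modes x) y
  have h2 : |φ x y| = ‖(φ x y : ℂ)‖ := by rw [Complex.norm_real, Real.norm_eq_abs]
  rw [h2, h1]
  calc ‖∑ k ∈ Finset.Icc (-(K : ℤ)) K, um φ k x * Complex.exp (k * y * Complex.I)‖
      ≤ ∑ k ∈ Finset.Icc (-(K : ℤ)) K, ‖um φ k x * Complex.exp (k * y * Complex.I)‖ :=
        norm_sum_le _ _
    _ ≤ ∑ k ∈ Finset.Icc (-(K : ℤ)) K, (2 * S) := by
        refine Finset.sum_le_sum fun k _ => ?_
        rw [norm_mul, show (k : ℂ) * (y : ℂ) * Complex.I = ((k * y : ℝ) : ℂ) * Complex.I by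
          push_cast; ring, Complex.norm_exp_ofReal_mul_I, mul_one]
        exact key k x hx
    _ = (2 * K + 1) * (2 * S) := by
        rw [Finset.sum_const, Int.card_Icc, nsmul_eq_mul]
        congr 1
        have : ((K : ℤ) + 1 - -(K : ℤ)).toNat = 2 * K + 1 := by omega
        rw [this]; push_cast; ring
    _ ≤ 4 * (K + 1) * S := by nlinarith

end sol

end

end Pool.Agent.N645.SR
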